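import Mathlib
import Pool.Agent.Lib.helper4.EUSel

set_option autoImplicit false

namespace Pool.Agent.Results.MP_8a0632_lc.NotEU

open Filter Topology

/-- A proper ideal on the natural numbers that contains all finite sets. -/
def IsIdeal (I : Set (Set ℕ)) : Prop :=
  (∀ A ∈ I, ∀ B ∈ I, A ∪ B ∈ I) ∧ (∀ A ∈ I, ∀ B, B ⊆ A → B ∈ I) ∧ Set.univ ∉ I ∧
    ∀ A : Set ℕ, A.Finite → A ∈ I

/-- The ideal of sets of density zero. -/
def Z : Set (Set ℕ) :=
  {A | Tendsto (fun n : ℕ => ((A ∩ Set.Iio n).ncard : ℝ) / n) atTop (𝓝 0)}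

/-- Weight functions that define an Erdos-Ulam ideal. -/
def IsEUWeight (f : ℕ → ℝ) : Prop :=
  (∀ n, 0 ≤ f n) ∧ Tendsto (fun n => ∑ i ∈ Finset.range n, f i) atTop atTop ∧
    Tendsto (fun n => f n / ∑ i ∈ Finset.range (n + 1), f i) atTop (𝓝 0)

/-- The Erdos-Ulam ideal of the weight `f`. -/
def EU (f : ℕ → ℝ) : Set (Set ℕ) :=
  {A | Tendsto (fun n => (∑ i ∈ Finset.range n, A.indicator f i) / ∑ i ∈ Finset.range n, f i)
    atTop (𝓝 0)}

/-- The Rudin-Blass order. -/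
def RB (I J : Set (Set ℕ)) : Prop :=
  ∃ φ : ℕ → ℕ, (∀ y, (φ ⁻¹' {y}).Finite) ∧ ∀ A, A ∈ I ↔ φ ⁻¹' A ∈ J

open Finset Pool.Agent.Lib.H4EUSel

open Classical in
noncomputable def cnt (A : Set ℕ) (a b : ℕ) : ℕ := ((Ico a b).filter (· ∈ A)).card

theorem ncard_eq (A : Set ℕ) (n : ℕ) : (A ∩ Set.Iio n).ncard = cnt A 0 n := by
  classical
  rw [cnt, ← Set.ncard_coe_finset]
  congr 1
  ext x
  simp [and_comm]

theorem cnt_add (A : Set ℕ) {a b c : ℕ} (h1 : a ≤ b) (h2 : b ≤ c) :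
    cnt A a c = cnt A a b + cnt A b c := by
  classical
  unfold cnt
  rw [← Ico_union_Ico_eq_Ico h1 h2, filter_union, card_union_of_disjoint]
  exact disjoint_filter_filter (Ico_disjoint_Ico_consecutive a b c)

theorem cnt_le (A : Set ℕ) (a b : ℕ) : cnt A a b ≤ b - a := by
  classical
  exact (card_filter_le _ _).trans (Nat.card_Ico a b).le

theorem cnt_mono {A B : Set ℕ} (a b : ℕ) (h : ∀ x, a ≤ x → x < b → x ∈ A → x ∈ B) :
    cnt A a b ≤ cnt B a b := by
  classical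
  apply card_le_card
  intro x hx
  obtain ⟨h1, h2⟩ := mem_filter.1 hx
  exact mem_filter.2 ⟨h1, h x (mem_Ico.1 h1).1 (mem_Ico.1 h1).2 h2⟩

theorem cnt_div (A : Set ℕ) (d a b : ℕ) (hd : 0 < d) :
    cnt ((fun t => t / d) ⁻¹' A) (d * a) (d * b) = d * cnt A a b := by
  classical
  unfold cnt
  rw [← card_range d, ← card_product, card_range]
  apply card_bij (fun t _ => (t % d, t / d))
  · intro t ht
    obtain ⟨h1, h2⟩ := mem_filter.1 ht
    obtain ⟨h3, h4⟩ := mem_Ico.1 h1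
    refine mem_product.2 ⟨mem_range.2 (Nat.mod_lt _ hd), mem_filter.2 ⟨mem_Ico.2 ⟨?_, ?_⟩, h2⟩⟩
    · exact (Nat.le_div_iff_mul_le hd).2 (by rwa [mul_comm])
    · exact Nat.div_lt_of_lt_mul h4
  · intro s _ t _ h
    rw [← Nat.div_add_mod s d, ← Nat.div_add_mod t d, (Prod.mk.inj h).1, (Prod.mk.inj h).2]
  · rintro ⟨r, x⟩ h
    obtain ⟨h1, h2⟩ := mem_product.1 h
    obtain ⟨h3, h4⟩ := mem_filter.1 h2
    obtain ⟨h5, h6⟩ := mem_Ico.1 h3
    have hr : r < d := mem_range.1 h1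
    have e1 : (d * x + r) / d = x := by rw [Nat.mul_add_div hd, Nat.div_eq_of_lt hr, add_zero]
    have e2 : (d * x + r) % d = r := by rw [Nat.mul_add_mod, Nat.mod_eq_of_lt hr]
    refine ⟨d * x + r, mem_filter.2 ⟨mem_Ico.2 ⟨?_, ?_⟩, ?_⟩, by rw [e1, e2]⟩
    · exact (Nat.mul_le_mul_left d h5).trans (Nat.le_add_right _ _)
    · have := Nat.mul_le_mul_left d (Nat.succ_le_of_lt h6)
      rw [Nat.mul_succ] at this
      exact lt_of_lt_of_le (Nat.add_lt_add_left hr _) this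
    · change (d * x + r) / d ∈ A
      rw [e1]
      exact h4

noncomputable def bd (A : Set ℕ) (m : ℕ) : ℝ := (cnt A (2 ^ m) (2 ^ (m + 1)) : ℝ) / 2 ^ m

theorem bd_nonneg (A : Set ℕ) (m : ℕ) : 0 ≤ bd A m := by unfold bd; positivity

theorem Z_iff (A : Set ℕ) : A ∈ Z ↔ Tendsto (bd A) atTop (𝓝 0) := by
  simp only [Z, Set.mem_ofPred_eq, ncard_eq]
  constructor
  · intro h
    have h1 : Tendsto (fun m : ℕ => 2 ^ (m + 1)) atTop atTop :=
      (tendsto_pow_atTop_atTop_of_one_lt (by norm_num : 1 < 2)).comp (tendsto_add_atTop_nat 1)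
    have h2 := (h.comp h1).const_mul 2
    rw [mul_zero] at h2
    refine squeeze_zero (bd_nonneg A) (fun m => ?_) h2
    have h3 := cnt_add A (Nat.zero_le (2 ^ m))
      (Nat.pow_le_pow_right (by norm_num) (Nat.le_succ m))
    simp only [bd, Function.comp, h3]
    push_cast
    rw [pow_succ (2 : ℝ), ← mul_div_assoc, mul_comm ((2 : ℝ) ^ m), mul_div_mul_left _ _ two_ne_zero]
    gcongr
    exact le_add_of_nonneg_left (Nat.cast_nonneg _)
  · intro h
    rw [Metric.tendsto_atTop] at h ⊢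
    intro ε hε
    obtain ⟨m0, hm0⟩ := h (ε / 4) (by positivity)
    have key : ∀ L, (cnt A 0 (2 ^ L) : ℝ) ≤ 2 ^ m0 + ε / 4 * 2 ^ L := by
      intro L
      induction L with
      | zero =>
        have h1 : (cnt A 0 (2 ^ 0) : ℝ) ≤ 1 := by exact_mod_cast cnt_le A 0 (2 ^ 0)
        have h2 : (1 : ℝ) ≤ 2 ^ m0 := one_le_pow₀ (by norm_num)
        have : 0 ≤ ε / 4 * 2 ^ 0 := by positivity
        exact h1.trans (h2.trans (le_add_of_nonneg_right this))
      | succ L ih =>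
        by_cases hL : L < m0
        · have h1 : (cnt A 0 (2 ^ (L + 1)) : ℝ) ≤ 2 ^ (L + 1) := by
            exact_mod_cast cnt_le A 0 (2 ^ (L + 1))
          have h2 : (2 : ℝ) ^ (L + 1) ≤ 2 ^ m0 := pow_le_pow_right₀ (by norm_num) hL
          have : 0 ≤ ε / 4 * 2 ^ (L + 1) := by positivity
          linarith
        · have h1 := hm0 L (not_lt.1 hL)
          rw [Real.dist_0_eq_abs, abs_of_nonneg (bd_nonneg A L), bd,
            div_lt_iff₀ (by positivity)] at h1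
          rw [cnt_add A (Nat.zero_le (2 ^ L)) (Nat.pow_le_pow_right (by norm_num) (Nat.le_succ L))]
          push_cast
          rw [pow_succ (2 : ℝ)]
          linarith
    obtain ⟨N, hN⟩ := exists_nat_gt (2 ^ m0 / (ε / 2))
    refine ⟨N + 1, fun n hn => ?_⟩
    have hn0 : (0 : ℝ) < n := by exact_mod_cast (by omega : 0 < n)
    rw [Real.dist_0_eq_abs, abs_of_nonneg (by positivity), div_lt_iff₀ hn0]
    have h1 : n ≤ 2 ^ (Nat.log 2 n + 1) := (Nat.lt_pow_succ_log_self (by norm_num) n).le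
    have h2 : (2 : ℝ) ^ Nat.log 2 n ≤ n := by
      exact_mod_cast Nat.pow_log_le_self 2 (by omega : n ≠ 0)
    have h3 : (cnt A 0 n : ℝ) ≤ cnt A 0 (2 ^ (Nat.log 2 n + 1)) := by
      rw [cnt_add A (Nat.zero_le n) h1]
      push_cast
      exact le_add_of_nonneg_right (Nat.cast_nonneg _)
    have h4 := key (Nat.log 2 n + 1)
    rw [pow_succ (2 : ℝ)] at h4
    rw [div_lt_iff₀ (by positivity)] at hN
    have h5 : (N : ℝ) ≤ n := by exact_mod_cast (by omega : N ≤ n)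
    nlinarith

/-- The shadow of a set of codes of pairs. -/
def sh (A : Set ℕ) : Set ℕ := {x | ∃ k ≤ Nat.log 2 x, Nat.pair x k ∈ A}

def I0 : Set (Set ℕ) := {A | sh A ∈ Z}

theorem bd_full {A : Set ℕ} {m : ℕ} (h : ∀ x, 2 ^ m ≤ x → x < 2 ^ (m + 1) → x ∈ A) :
    bd A m = 1 := by
  classical
  have : cnt A (2 ^ m) (2 ^ (m + 1)) = 2 ^ m := by
    rw [cnt, filter_true_of_mem (fun x hx => h x (mem_Ico.1 hx).1 (mem_Ico.1 hx).2), Nat.card_Ico,
      pow_succ, mul_two, Nat.add_sub_cancel]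
  rw [bd, this]
  push_cast
  exact div_self (by positivity)

theorem not_Z {A : Set ℕ} (h : ∀ N, ∃ m ≥ N, ∀ x, 2 ^ m ≤ x → x < 2 ^ (m + 1) → x ∈ A) :
    A ∉ Z := by
  rw [Z_iff, Metric.tendsto_atTop]
  intro h1
  obtain ⟨N, hN⟩ := h1 1 one_pos
  obtain ⟨m, hm, h2⟩ := h N
  have := hN m hm
  rw [bd_full h2] at this
  simp at this

theorem ideal : IsIdeal I0 := by
  classical
  refine ⟨?_, ?_, ?_, ?_⟩
  · intro A hA B hB
    have h := ((Z_iff _).1 hA).add ((Z_iff _).1 hB)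
    rw [add_zero] at h
    refine (Z_iff _).2 (squeeze_zero (bd_nonneg _) (fun m => ?_) h)
    simp only [bd, ← add_div]
    gcongr
    norm_cast
    refine le_trans (card_le_card ?_) (card_union_le _ _)
    intro x hx
    obtain ⟨h1, k, h2, h3 | h3⟩ := mem_filter.1 hx
    · exact mem_union_left _ (mem_filter.2 ⟨h1, k, h2, h3⟩)
    · exact mem_union_right _ (mem_filter.2 ⟨h1, k, h2, h3⟩)
  · intro A hA B hB
    refine (Z_iff _).2 (squeeze_zero (bd_nonneg _) (fun m => ?_) ((Z_iff _).1 hA))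
    simp only [bd]
    gcongr
    exact cnt_mono _ _ (fun x _ _ ⟨k, h1, h2⟩ => ⟨k, h1, hB h2⟩)
  · exact not_Z (fun N => ⟨N, le_rfl, fun x _ _ => ⟨0, Nat.zero_le _, trivial⟩⟩)
  · intro A hA
    obtain ⟨b, hb⟩ := hA.bddAbove
    refine (Z_iff _).2 (tendsto_const_nhds.congr' ?_)
    filter_upwards [eventually_ge_atTop b] with m hm
    have : cnt (sh A) (2 ^ m) (2 ^ (m + 1)) = 0 := by
      rw [cnt, card_eq_zero, filter_eq_empty_iff]
      rintro x hx ⟨k, -, hk⟩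
      have h1 := hb hk
      have h2 := Nat.left_le_pair x k
      have h3 := (mem_Ico.1 hx).1
      have h4 : m < 2 ^ m := Nat.lt_two_pow_self
      omega
    simp [bd, this]

theorem fin_of_tendsto {φ : ℕ → ℕ} (h : Tendsto φ atTop atTop) (y : ℕ) : (φ ⁻¹' {y}).Finite := by
  obtain ⟨N, hN⟩ := eventually_atTop.1 (h.eventually_gt_atTop y)
  refine (Set.finite_lt_nat N).subset (fun t ht => ?_)
  by_contra hc
  exact (hN t (not_lt.1 hc)).ne' ht

theorem rb1 : RB Z I0 := by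
  refine ⟨fun y => if y.unpair.2 ≤ Nat.log 2 y.unpair.1 then y.unpair.1 else y, ?_, ?_⟩
  · intro b
    refine (((Set.finite_le_nat b).image (fun k => Nat.pair b k)).insert b).subset ?_
    intro y hy
    simp only [Set.mem_preimage, Set.mem_singleton_iff] at hy
    split_ifs at hy with h
    · refine Or.inr ⟨y.unpair.2, ?_, by rw [← hy]; exact Nat.pair_unpair y⟩
      rw [hy] at h
      exact h.trans (Nat.log_le_self 2 b)
    · exact Or.inl hy
  · intro B
    have : sh ((fun y => if y.unpair.2 ≤ Nat.log 2 y.unpair.1 then y.unpair.1 else y) ⁻¹' B) =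
        B := by
      ext x
      constructor
      · rintro ⟨k, h1, h2⟩
        simpa [h1] using h2
      · intro h
        exact ⟨0, Nat.zero_le _, by simpa using h⟩
    change _ ↔ sh _ ∈ Z
    rw [this]

theorem enum : ∃ (nb : ℕ → ℕ) (hb : ℕ → ℕ → ℕ), (∀ m, nb m ≤ m) ∧ (∀ m x, hb m x ≤ nb m) ∧
    Tendsto nb atTop atTop ∧ ∀ n (h : ℕ → ℕ), (∀ x, h x ≤ n) →
      ∃ m ≥ n, nb m = n ∧ ∀ x < 2 ^ (n + 1), hb m x = h x := by
  let P : ℕ → Type := fun n => Fin (2 ^ (n + 1)) → Fin (n + 1)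
  let c : ℕ → ℕ := fun n => Fintype.card (Fin (2 ^ (n + 1)) → Fin (n + 1))
  refine ⟨fun m => if m.unpair.2 < c m.unpair.1 then m.unpair.1 else m,
    fun m x => if h : m.unpair.2 < c m.unpair.1 then (if hx : x < 2 ^ (m.unpair.1 + 1) then
      ((Fintype.equivFin _).symm ⟨_, h⟩ ⟨x, hx⟩).val else 0) else 0, ?_, ?_, ?_, ?_⟩
  · intro m
    dsimp only
    split_ifs
    · exact Nat.unpair_left_le m
    · exact le_rfl
  · intro m x
    dsimp only
    split_ifs
    · exact Nat.le_of_lt_succ (Fin.is_lt _)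
    · exact Nat.zero_le _
    · exact Nat.zero_le _
  · rw [← Nat.cofinite_eq_atTop, Nat.cofinite_eq_atTop, tendsto_atTop]
    intro N
    rw [← Nat.cofinite_eq_atTop, eventually_cofinite]
    refine ((Set.finite_lt_nat N).union ((Set.finite_lt_nat N).biUnion
      (fun n _ => (Set.finite_lt_nat (c n)).image (Nat.pair n)))).subset ?_
    intro m hm
    simp only [Set.mem_ofPred_eq, not_le] at hm
    split_ifs at hm with h
    · exact Or.inr (Set.mem_biUnion hm ⟨_, h, Nat.pair_unpair m⟩)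
    · exact Or.inl hm
  · intro n h hh
    obtain ⟨⟨j, hj⟩, e⟩ := (Fintype.equivFin (Fin (2 ^ (n + 1)) → Fin (n + 1))).symm.surjective
      (fun x => ⟨h x, Nat.lt_succ_of_le (hh x)⟩)
    obtain ⟨m, h1, h2, h3⟩ : ∃ m, m.unpair.1 = n ∧ m.unpair.2 = j ∧ n ≤ m :=
      ⟨Nat.pair n j, by simp, by simp, Nat.left_le_pair _ _⟩
    subst h1 h2
    refine ⟨m, h3, if_pos hj, fun x hx => ?_⟩
    dsimp only
    rw [dif_pos hj, dif_pos hx, e]

theorem rb2 : RB I0 Z := by
  classical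
  obtain ⟨nb, hb, h1, h2, h3, h4⟩ := enum
  let φ : ℕ → ℕ := fun t => Nat.pair (t / 2 ^ (Nat.log 2 t - nb (Nat.log 2 t)))
    (hb (Nat.log 2 t) (t / 2 ^ (Nat.log 2 t - nb (Nat.log 2 t))))
  have hpow : ∀ m, 2 ^ m = 2 ^ (m - nb m) * 2 ^ nb m := fun m => by
    rw [← pow_add, Nat.sub_add_cancel (h1 m)]
  have key : ∀ (A : Set ℕ) m, bd (φ ⁻¹' A) m = bd {x | Nat.pair x (hb m x) ∈ A} (nb m) := by
    intro A m
    have e1 : cnt (φ ⁻¹' A) (2 ^ m) (2 ^ (m + 1)) =
        cnt ((fun t => t / 2 ^ (m - nb m)) ⁻¹' {x | Nat.pair x (hb m x) ∈ A})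
          (2 ^ m) (2 ^ (m + 1)) := by
      apply le_antisymm <;> apply cnt_mono <;> intro t ht1 ht2 <;>
        simp only [φ, Set.mem_preimage, Set.mem_ofPred_eq, Nat.log_eq_of_pow_le_of_lt_pow ht1 ht2] <;>
        exact id
    have e2 : 2 ^ (m + 1) = 2 ^ (m - nb m) * 2 ^ (nb m + 1) := by
      rw [pow_succ, pow_succ, ← mul_assoc, ← hpow]
    rw [bd, bd, e1, e2]
    nth_rewrite 1 [hpow m]
    rw [cnt_div _ _ _ _ (by positivity)]
    have e3 : (2 : ℝ) ^ m = 2 ^ (m - nb m) * 2 ^ nb m := by exact_mod_cast hpow m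
    rw [e3]
    push_cast
    exact mul_div_mul_left _ _ (by positivity)
  refine ⟨φ, fin_of_tendsto ?_, fun A => ?_⟩
  · have hl : Tendsto (Nat.log 2) atTop atTop :=
      tendsto_atTop_atTop_of_monotone Nat.log_monotone (fun b => ⟨2 ^ b, by simp⟩)
    refine tendsto_atTop_mono' atTop ?_ (h3.comp hl)
    filter_upwards [eventually_ne_atTop 0] with t ht
    refine le_trans ?_ (Nat.left_le_pair _ _)
    refine le_trans Nat.lt_two_pow_self.le ((Nat.le_div_iff_mul_le (by positivity)).2 ?_)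
    rw [mul_comm, Function.comp, ← hpow]
    exact Nat.pow_log_le_self 2 ht
  · change sh A ∈ Z ↔ _
    rw [Z_iff, Z_iff]
    constructor
    · intro h
      refine squeeze_zero (bd_nonneg _) (fun m => ?_) (h.comp h3)
      rw [key]
      simp only [bd, Function.comp]
      gcongr
      refine cnt_mono _ _ (fun x hx1 hx2 hx => ⟨hb m x, ?_, hx⟩)
      rw [Nat.log_eq_of_pow_le_of_lt_pow hx1 hx2]
      exact h2 m x
    · intro h
      have h5 : ∀ n, ∃ m ≥ n, bd (sh A) n ≤ bd (φ ⁻¹' A) m := by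
        intro n
        obtain ⟨m, hm, e, hh⟩ := h4 n (fun x => if hx : ∃ k ≤ n, Nat.pair x k ∈ A then
          hx.choose else 0) (by
            intro x
            split_ifs with hx
            · exact hx.choose_spec.1
            · exact Nat.zero_le _)
        refine ⟨m, hm, ?_⟩
        rw [key, e]
        simp only [bd]
        gcongr
        refine cnt_mono _ _ (fun x hx1 hx2 hx => ?_)
        have hx' : ∃ k ≤ n, Nat.pair x k ∈ A := by
          rw [← Nat.log_eq_of_pow_le_of_lt_pow hx1 hx2]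
          exact hx
        change Nat.pair x (hb m x) ∈ A
        rw [hh x hx2, dif_pos hx']
        exact hx'.choose_spec.2
      choose g hg hg' using h5
      exact squeeze_zero (bd_nonneg _) hg' (h.comp (tendsto_atTop_mono hg tendsto_id))

theorem piece (f : ℕ → ℝ) (hf : IsEUWeight f) (u : ℕ → ℕ → ℕ)
    (hu : ∀ x k x' k', u x k = u x' k' → x = x' ∧ k = k') (j : ℕ) :
    ∃ (n : ℕ) (h : ℕ → ℕ), j ≤ n ∧ (∀ x, h x ≤ n) ∧ ∀ N,
      ∑ y ∈ ((Ico (2 ^ n) (2 ^ (n + 1))).image (fun x => u x (h x))).filter (· < N), f y ≤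
        6 * (1 / 2) ^ j * ∑ i ∈ range N, f i := by
  obtain ⟨h, hK, hinj⟩ := selector f (2 ^ j) (by positivity) u hu
  obtain ⟨y0, hy0⟩ := Metric.tendsto_atTop.1 hf.2.2 ((1 / 2) ^ j) (by positivity)
  have hui : Function.Injective (fun x => u x (h x)) := fun x y e => (hu _ _ _ _ e).1
  obtain ⟨x0, hx0⟩ := eventually_atTop.1 (hui.nat_tendsto_atTop.eventually_ge_atTop y0)
  have hj : j < 2 ^ j := Nat.lt_two_pow_self
  refine ⟨x0 + 2 ^ j, h, by omega, fun x => by have := hK x; omega, fun N => ?_⟩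
  have hF : 0 ≤ ∑ i ∈ range N, f i := sum_nonneg (fun i _ => hf.1 i)
  have := light f hf.1 (2 ^ j) (by positivity)
    (((Ico (2 ^ (x0 + 2 ^ j)) (2 ^ (x0 + 2 ^ j + 1))).image (fun x => u x (h x))).filter (· < N))
    (by
      intro y hy z hz e
      obtain ⟨a, -, rfl⟩ := mem_image.1 (mem_filter.1 hy).1
      obtain ⟨b, -, rfl⟩ := mem_image.1 (mem_filter.1 hz).1
      rw [hinj e])
    N (fun y hy => (mem_filter.1 hy).2) ((1 / 2) ^ j * ∑ i ∈ range N, f i) (by positivity) (by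
      intro y hy
      obtain ⟨a, ha, rfl⟩ := mem_image.1 (mem_filter.1 hy).1
      have h1 : x0 + 2 ^ j < 2 ^ (x0 + 2 ^ j) := Nat.lt_two_pow_self
      have h2 := hy0 _ (hx0 a (by have := (mem_Ico.1 ha).1; omega))
      have h3 : f (u a (h a)) ≤ ∑ i ∈ range (u a (h a) + 1), f i :=
        single_le_sum (fun i _ => hf.1 i) (self_mem_range_succ _)
      have h4 : ∑ i ∈ range (u a (h a) + 1), f i ≤ ∑ i ∈ range N, f i :=
        sum_le_sum_of_subset_of_nonneg (range_mono (mem_filter.1 hy).2) (fun i _ _ => hf.1 i)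
      rcases (hf.1 (u a (h a))).eq_or_lt with h5 | h5
      · rw [← h5]; positivity
      · rw [Real.dist_0_eq_abs, abs_lt, div_lt_iff₀ (h5.trans_le h3)] at h2
        exact h2.2.le.trans (mul_le_mul_of_nonneg_left h4 (by positivity)))
  have e : (2 : ℝ) / ((2 ^ j : ℕ) : ℝ) = 2 * (1 / 2) ^ j := by
    push_cast
    rw [one_div, inv_pow, div_eq_mul_inv]
  rw [e] at this
  linarith

theorem union_EU (f : ℕ → ℝ) (hf : IsEUWeight f) (T : ℕ → Finset ℕ)
    (hT : ∀ j N, ∑ y ∈ (T j).filter (· < N), f y ≤ 6 * (1 / 2) ^ j * ∑ i ∈ range N, f i) :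
    (⋃ j, (T j : Set ℕ)) ∈ EU f := by
  classical
  change Tendsto _ _ _
  rw [Metric.tendsto_atTop]
  intro ε hε
  obtain ⟨j0, hj0⟩ := exists_pow_lt_of_lt_one (by positivity : 0 < ε / 24)
    (by norm_num : (1 / 2 : ℝ) < 1)
  set c := ∑ j ∈ range j0, ∑ y ∈ T j, f y with hc
  have hc0 : 0 ≤ c := sum_nonneg (fun j _ => sum_nonneg (fun y _ => hf.1 y))
  obtain ⟨N0, hN0⟩ := eventually_atTop.1 (hf.2.1.eventually_gt_atTop (c / (ε / 2)))
  refine ⟨N0, fun N hN => ?_⟩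
  have h1 := hN0 N hN
  have hF : 0 < ∑ i ∈ range N, f i := lt_of_le_of_lt (by positivity) h1
  rw [Real.dist_0_eq_abs, abs_of_nonneg (div_nonneg (sum_nonneg (fun i _ =>
    Set.indicator_nonneg (fun y _ => hf.1 y) i)) hF.le), div_lt_iff₀ hF]
  rw [div_lt_iff₀ (by positivity)] at h1
  obtain ⟨J, hJ⟩ : ∃ J, ∀ y < N, y ∈ (⋃ j, (T j : Set ℕ)) → ∃ j < j0 + J, y ∈ T j := by
    have : ∀ y, ∃ J, y ∈ (⋃ j, (T j : Set ℕ)) → ∃ j < J, y ∈ T j := by
      intro y
      by_cases hy : y ∈ (⋃ j, (T j : Set ℕ))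
      · obtain ⟨j, hj⟩ := Set.mem_iUnion.1 hy
        exact ⟨j + 1, fun _ => ⟨j, Nat.lt_succ_self j, hj⟩⟩
      · exact ⟨0, fun h => absurd h hy⟩
    choose g hg using this
    refine ⟨(range N).sup g, fun y hy h => ?_⟩
    obtain ⟨j, hj, hj'⟩ := hg y h
    have := le_sup (f := g) (mem_range.2 hy)
    exact ⟨j, by omega, hj'⟩
  have h2 : ∑ i ∈ range N, (⋃ j, (T j : Set ℕ)).indicator f i ≤
      ∑ j ∈ range (j0 + J), ∑ y ∈ (T j).filter (· < N), f y := by
    have e : ∀ j, ∑ y ∈ (T j).filter (· < N), f y = ∑ y ∈ range N, if y ∈ T j then f y else 0 := by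
      intro j
      rw [← sum_filter]
      apply sum_congr _ (fun _ _ => rfl)
      ext y
      simp [and_comm]
    simp only [e]
    rw [sum_comm]
    apply sum_le_sum
    intro y hy
    have hnn : ∀ j ∈ range (j0 + J), 0 ≤ if y ∈ T j then f y else 0 := by
      intro j _
      split_ifs
      · exact hf.1 y
      · exact le_rfl
    by_cases h : y ∈ (⋃ j, (T j : Set ℕ))
    · obtain ⟨j, hj, hj'⟩ := hJ y (mem_range.1 hy) h
      rw [Set.indicator_of_mem h]
      have := single_le_sum hnn (mem_range.2 hj)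
      rwa [if_pos hj'] at this
    · rw [Set.indicator_of_notMem h]
      exact sum_nonneg hnn
  rw [sum_range_add] at h2
  have h3 : ∑ j ∈ range j0, ∑ y ∈ (T j).filter (· < N), f y ≤ c :=
    sum_le_sum (fun j _ => sum_le_sum_of_subset_of_nonneg (filter_subset _ _) (fun y _ _ => hf.1 y))
  have h4 : ∑ j ∈ range J, ∑ y ∈ (T (j0 + j)).filter (· < N), f y ≤
      (6 * (1 / 2) ^ j0 * ∑ i ∈ range N, f i) * ∑ j ∈ range J, (1 / 2 : ℝ) ^ j := by
    rw [mul_sum (range J)]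
    refine sum_le_sum (fun j _ => (hT _ _).trans (le_of_eq ?_))
    rw [pow_add]
    ring
  have h5 := mul_le_mul_of_nonneg_left (sum_geometric_two_le J)
    (by positivity : 0 ≤ 6 * (1 / 2) ^ j0 * ∑ i ∈ range N, f i)
  have h6 := mul_lt_mul_of_pos_right hj0 hF
  linarith

theorem result : ∃ I : Set (Set ℕ), IsIdeal I ∧ RB I Z ∧ RB Z I ∧
    ¬ ∃ (f : ℕ → ℝ) (e : ℕ ≃ ℕ), IsEUWeight f ∧ ∀ A, A ∈ I ↔ e '' A ∈ EU f := by
  refine ⟨I0, ideal, rb2, rb1, ?_⟩
  rintro ⟨f, e, hf, hI⟩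
  choose n h h1 h2 h3 using piece f hf (fun x k => e (Nat.pair x k))
    (fun x k x' k' hh => Nat.pair_eq_pair.1 (e.injective hh))
  have h4 := union_EU f hf _ h3
  rw [← e.image_preimage (⋃ j, _), ← hI] at h4
  refine not_Z (A := sh _) (fun N => ⟨n N, h1 N, fun x hx1 hx2 => ⟨h N x, ?_, ?_⟩⟩) h4
  · rw [Nat.log_eq_of_pow_le_of_lt_pow hx1 hx2]
    exact h2 N x
  · exact Set.mem_iUnion.2 ⟨N, mem_coe.2 (mem_image.2 ⟨x, mem_Ico.2 ⟨hx1, hx2⟩, rfl⟩)⟩

end Pool.Agent.Results.MP_8a0632_lc.NotEU
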